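import Mathlib

set_option autoImplicit false

namespace Pool.Agent.Results.MP_1375b8_an.Bounded

theorem result : ∃ μ y₀ : ℝ, 0 < μ ∧ 0 < y₀ ∧ ∃ y : ℕ → ℝ, y 0 = y₀ ∧
    (∀ n, y (2 * n + 1) = y (2 * n) + μ * (1 - Real.exp (y n))) ∧
    (∀ n, 1 ≤ n → y (2 * n) = y (2 * n - 1) + μ * (1 - Real.exp (y n))) ∧
    ∃ M : ℝ, ∀ n, |y n| ≤ M := by
  have he : 0 < Real.exp 1 - 1 := by linarith [Real.add_one_lt_exp (one_ne_zero (α := ℝ))]
  refine ⟨(Real.exp 1 - 1)⁻¹, 1, inv_pos.2 he, one_pos, fun n => if n = 0 then 1 else 0, by simp,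
    fun n => ?_, fun n hn => ?_, 1, fun n => ?_⟩
  · by_cases h : n = 0
    · subst h; simp; field_simp; ring
    · simp [h]
  · have h1 : n ≠ 0 := by omega
    have h2 : 2 * n - 1 ≠ 0 := by omega
    simp [h1, h2]
  · by_cases h : n = 0 <;> simp [h]

end Pool.Agent.Results.MP_1375b8_an.Bounded
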